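import Pool.Agent.Lib.H91.HopfMax

/-!
# From the certificate to the final statements (complex sectional curvature, dimension six)

Reduction of the inequality and of its strict form to the Einstein gauge at a best splitting.
-/

open Matrix Finset
open Pool.Agent.H69Hopf

namespace HopfKC

/-- All sectional curvatures are positive. -/
def SecPos (R : Arr 6) : Prop :=
  ∀ x y : Fin 6 → ℝ, LinearIndependent ℝ ![x, y] → 0 < ev R x y x y

theorem comb_add (g : Fin 6 → (Fin 6 → ℝ)) (x y : Fin 6 → ℝ) (a b : ℝ) :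
    comb g (a • x + b • y) = a • comb g x + b • comb g y := by
  funext k
  simp only [comb, Pi.add_apply, Pi.smul_apply, smul_eq_mul, Finset.mul_sum,
    ← Finset.sum_add_distrib]
  exact Finset.sum_congr rfl fun i _ => by ring

theorem comb_eq_vecMul (g : Matrix (Fin 6) (Fin 6) ℝ) (x : Fin 6 → ℝ) :
    comb (fun i => g i) x = x ᵥ* g := by
  funext k
  simp [comb, vecMul, dotProduct]

theorem comb_inj {g : Matrix (Fin 6) (Fin 6) ℝ} (hg : g.det ≠ 0) {x : Fin 6 → ℝ}
    (h : comb (fun i => g i) x = 0) : x = 0 := by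
  rw [comb_eq_vecMul] at h
  exact Matrix.eq_zero_of_vecMul_eq_zero hg h

theorem secPos_pull {R : Arr 6} (h : SecPos R) {g : Matrix (Fin 6) (Fin 6) ℝ} (hg : g.det ≠ 0) :
    SecPos (pull (fun i => g i) R) := by
  intro x y hxy
  rw [← ev_comb]
  apply h
  rw [LinearIndependent.pair_iff] at hxy ⊢
  intro s t hst
  rw [← comb_add] at hst
  exact hxy s t (comb_inj hg hst)

theorem secPos_smul {R : Arr 6} (h : SecPos R) {t : ℝ} (ht : 0 < t) :
    SecPos (fun i j k l => t * R i j k l) := by
  intro x y hxy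
  have e : ev (fun i j k l => t * R i j k l) x y x y = t * ev R x y x y := by
    rw [ev_quad, ev_quad, Finset.mul_sum]
    exact Finset.sum_congr rfl fun q _ => by ring
  rw [e]
  exact mul_pos ht (h x y hxy)

/-- Einstein gauge for a tensor with nonnegative sectional curvatures plus a multiple of the
constant curvature tensor. -/
theorem exists_gauge' {R : Arr 6} (hA : IsAlgCurv R) (hsec : ∀ x y, 0 ≤ ev R x y x y) {ε : ℝ}
    (hε : 0 < ε) :
    ∃ (g : Matrix (Fin 6) (Fin 6) ℝ) (r : ℝ), g.det = 1 ∧ 0 < r ∧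
      ∀ i j, ricc (pull (fun i => g i) (fun i j k l => R i j k l + ε * idA 6 i j k l)) i j =
        if i = j then r else 0 := by
  obtain ⟨g, hg, hmin⟩ := exists_min R hε hsec
  set Q : Arr 6 := fun i j k l => R i j k l + ε * idA 6 i j k l with hQ
  have hQA : IsAlgCurv Q := algCurv_add_smul hA idA_algCurv ε
  set P := pull (fun i => g i) Q with hP
  have hPA : IsAlgCurv P := pull_algCurv _ hQA
  have hPh : ∀ h : Matrix (Fin 6) (Fin 6) ℝ, Phi P (hᵀ * h) (hᵀ * h) =
      Phi Q ((h * g)ᵀ * (h * g)) ((h * g)ᵀ * (h * g)) := by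
    intro h
    have h1 := Phi_gram P (fun i => h i)
    have h2 := Phi_gram Q (fun i => (h * g) i)
    refine h1.trans (Eq.trans ?_ h2.symm)
    refine Finset.sum_congr rfl fun i _ => Finset.sum_congr rfl fun j _ => ?_
    rw [hP, ← ev_comb, comb_mul, comb_mul]
  have hP1 : Phi P 1 1 = Phi Q (gᵀ * g) (gᵀ * g) := by
    have := hPh 1
    simpa using this
  have hE := einstein_of_min hPA (fun h hh => by
    rw [hPh h, hP1]
    exact hmin (h * g) (by rw [Matrix.det_mul, hh, hg, one_mul]))
  refine ⟨g, ricc P 0 0, hg, ?_, hE⟩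
  have htot : Phi P 1 1 = 6 * ricc P 0 0 := by
    rw [Phi_one_right]
    have : ∀ a c, ricc P a c * (1 : Matrix (Fin 6) (Fin 6) ℝ) a c =
        if a = c then ricc P 0 0 else 0 := by
      intro a c
      rw [hE a c, Matrix.one_apply]
      split_ifs <;> simp
    simp only [this, Finset.sum_ite_eq, Finset.mem_univ, if_true, Finset.sum_const,
      Finset.card_univ, Fintype.card_fin, nsmul_eq_mul]
    norm_num
  have hpos : 0 < Phi P 1 1 := by
    have hpsd : (gᵀ * g).PosSemidef := by
      have := Matrix.posSemidef_conjTranspose_mul_self g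
      rwa [Matrix.conjTranspose_eq_transpose_of_trivial] at this
    have hdet : (gᵀ * g).det = 1 := by rw [Matrix.det_mul, Matrix.det_transpose, hg, one_mul]
    have h1 := Phi_gram R (fun i => g i)
    have hnn : 0 ≤ Phi R (gᵀ * g) (gᵀ * g) := by
      refine le_of_le_of_eq ?_ h1.symm
      exact Finset.sum_nonneg fun i _ => Finset.sum_nonneg fun j _ => hsec _ _
    rw [hP1, hQ, Phi_add_smul_arr, Phi_idA]
    have := mul_pos hε (e2_pos hpsd hdet)
    linarith
  rw [htot] at hpos
  linarith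

theorem dot_pos {x : Fin 6 → ℝ} (hx : x ≠ 0) : 0 < dot x x := by
  rcases (dot_self_nonneg x).eq_or_lt with h | h
  · exfalso
    apply hx
    funext i
    have h1 : x i * x i ≤ dot x x :=
      Finset.single_le_sum (f := fun k => x k * x k) (fun k _ => mul_self_nonneg _)
        (Finset.mem_univ i)
    have : x i = 0 := by nlinarith [mul_self_nonneg (x i)]
    simpa using this
  · exact h

theorem dot_add_smul (x y z : Fin 6 → ℝ) (t : ℝ) : dot x (y + t • z) = dot x y + t * dot x z := by
  unfold dot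
  rw [Finset.mul_sum, ← Finset.sum_add_distrib]
  exact Finset.sum_congr rfl fun i _ => by simp only [Pi.add_apply, Pi.smul_apply, smul_eq_mul]; ring

/-- Positive sectional curvature is uniformly positive. -/
theorem secPos_unif {R : Arr 6} (hA : IsAlgCurv R) (h : SecPos R) :
    ∃ ε : ℝ, 0 < ε ∧ ∀ x y, ε * (dot x x * dot y y - dot x y ^ 2) ≤ ev R x y x y := by
  set K : Set ((Fin 6 → ℝ) × (Fin 6 → ℝ)) :=
    {p | dot p.1 p.1 = 1 ∧ dot p.2 p.2 = 1 ∧ dot p.1 p.2 = 0} with hK
  have hdc : ∀ f g : (Fin 6 → ℝ) × (Fin 6 → ℝ) → (Fin 6 → ℝ), Continuous f → Continuous g →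
      Continuous fun p => dot (f p) (g p) := by
    intro f g hf hg
    unfold dot
    fun_prop
  have hcl : IsClosed K :=
    (isClosed_eq (hdc _ _ continuous_fst continuous_fst) continuous_const).inter
      ((isClosed_eq (hdc _ _ continuous_snd continuous_snd) continuous_const).inter
        (isClosed_eq (hdc _ _ continuous_fst continuous_snd) continuous_const))
  have hsub : K ⊆ Set.Icc ((fun _ => -1, fun _ => -1) : (Fin 6 → ℝ) × (Fin 6 → ℝ))
      (fun _ => 1, fun _ => 1) := by
    have hb : ∀ x : Fin 6 → ℝ, dot x x = 1 → ∀ i, -1 ≤ x i ∧ x i ≤ 1 := by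
      intro x hx i
      have h1 : x i * x i ≤ dot x x :=
        Finset.single_le_sum (f := fun k => x k * x k) (fun k _ => mul_self_nonneg _)
          (Finset.mem_univ i)
      constructor <;> nlinarith
    intro p hp
    exact ⟨⟨fun i => (hb _ hp.1 i).1, fun i => (hb _ hp.2.1 i).1⟩,
      ⟨fun i => (hb _ hp.1 i).2, fun i => (hb _ hp.2.1 i).2⟩⟩
  have hcomp : IsCompact K := isCompact_Icc.of_isClosed_subset hcl hsub
  have hne : K.Nonempty := by
    refine ⟨(Pi.single 0 1, Pi.single 1 1), ?_, ?_, ?_⟩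
    · simp [dot, Fin.sum_univ_six]
    · simp [dot, Fin.sum_univ_six]
    · simp [dot, Fin.sum_univ_six]
  have hcont : Continuous fun p : (Fin 6 → ℝ) × (Fin 6 → ℝ) => ev R p.1 p.2 p.1 p.2 := by
    unfold ev
    fun_prop
  obtain ⟨p, hp, hmin⟩ := hcomp.exists_isMinOn hne hcont.continuousOn
  have hli : ∀ x y : Fin 6 → ℝ, dot x x = 1 → dot y y = 1 → dot x y = 0 →
      LinearIndependent ℝ ![x, y] := by
    intro x y hx hy hxy
    rw [LinearIndependent.pair_iff]
    intro s t hst
    have h1 : dot x (s • x + t • y) = 0 := by rw [hst]; simp [dot]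
    have h2 : dot y (s • x + t • y) = 0 := by rw [hst]; simp [dot]
    have e1 : dot x (s • x) = s * dot x x := by
      unfold dot; rw [Finset.mul_sum]
      exact Finset.sum_congr rfl fun i _ => by simp only [Pi.smul_apply, smul_eq_mul]; ring
    have e2 : dot y (s • x) = s * dot x y := by
      unfold dot; rw [Finset.mul_sum]
      exact Finset.sum_congr rfl fun i _ => by simp only [Pi.smul_apply, smul_eq_mul]; ring
    rw [dot_add_smul, e1, hx, hxy] at h1
    rw [dot_add_smul, e2, hxy, hy] at h2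
    constructor <;> linarith
  refine ⟨ev R p.1 p.2 p.1 p.2, h _ _ (hli _ _ hp.1 hp.2.1 hp.2.2), ?_⟩
  have hsk : ∀ x z w, ev R x x z w = 0 := by
    intro x z w
    have := ev_skew hA x x z w
    linarith
  have hsk2 : ∀ x z w, ev R z w x x = 0 := by
    intro x z w
    rw [ev_pair hA]
    exact hsk x z w
  have horth : ∀ x y : Fin 6 → ℝ, dot x y = 0 →
      ev R p.1 p.2 p.1 p.2 * (dot x x * dot y y) ≤ ev R x y x y := by
    intro x y hxy
    by_cases hx : x = 0
    · have : dot x x = 0 := by rw [hx]; simp [dot]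
      rw [this, hx]
      have : ev R 0 y 0 y = 0 := by simp [ev]
      rw [this]; simp
    by_cases hy : y = 0
    · have : dot y y = 0 := by rw [hy]; simp [dot]
      rw [this, hy]
      have : ev R x 0 x 0 = 0 := by simp [ev]
      rw [this]; simp
    have hdx := dot_pos hx
    have hdy := dot_pos hy
    set a := Real.sqrt (dot x x) with ha
    set b := Real.sqrt (dot y y) with hb
    have ha0 : 0 < a := Real.sqrt_pos.2 hdx
    have hb0 : 0 < b := Real.sqrt_pos.2 hdy
    have ha2 : a * a = dot x x := Real.mul_self_sqrt hdx.le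
    have hb2 : b * b = dot y y := Real.mul_self_sqrt hdy.le
    have hsm : ∀ (s t : ℝ) (u v : Fin 6 → ℝ), dot (s • u) (t • v) = s * t * dot u v := by
      intro s t u v
      unfold dot; rw [Finset.mul_sum]
      exact Finset.sum_congr rfl fun i _ => by simp only [Pi.smul_apply, smul_eq_mul]; ring
    have hmem : ((a⁻¹ • x, b⁻¹ • y) : (Fin 6 → ℝ) × (Fin 6 → ℝ)) ∈ K := by
      refine ⟨?_, ?_, ?_⟩
      · rw [hsm, ← ha2]; field_simp
      · rw [hsm, ← hb2]; field_simp
      · rw [hsm, hxy]; ring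
    have h1 := isMinOn_iff.1 hmin _ hmem
    simp only [ev_smul1, ev_smul2, ev_smul3, ev_smul4] at h1
    have h2 : ev R p.1 p.2 p.1 p.2 * (dot x x * dot y y) ≤
        (b⁻¹ * (a⁻¹ * (b⁻¹ * (a⁻¹ * ev R x y x y)))) * (dot x x * dot y y) :=
      mul_le_mul_of_nonneg_right h1 (mul_pos hdx hdy).le
    refine h2.trans (le_of_eq ?_)
    rw [← ha2, ← hb2]
    field_simp
  intro x y
  by_cases hx : x = 0
  · have : dot x x = 0 := by rw [hx]; simp [dot]
    rw [this, hx]
    have : ev R 0 y 0 y = 0 := by simp [ev]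
    rw [this]
    have : dot (0 : Fin 6 → ℝ) y = 0 := by simp [dot]
    rw [this]; simp
  have hdx := dot_pos hx
  set t : ℝ := -(dot x y / dot x x) with ht
  set y' : Fin 6 → ℝ := y + t • x with hy'
  have h1 : dot x y' = 0 := by
    rw [hy', dot_add_smul, ht]
    field_simp
    ring
  have h2 : dot y' y' = dot y y - dot x y ^ 2 / dot x x := by
    have e1 : dot y' y' = dot y y' + t * dot x y' := by
      rw [dot_comm y' y', hy']
      unfold dot
      rw [Finset.mul_sum, ← Finset.sum_add_distrib]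
      exact Finset.sum_congr rfl fun i _ => by
        simp only [Pi.add_apply, Pi.smul_apply, smul_eq_mul]; ring
    rw [e1, h1, hy', dot_add_smul, dot_comm y x, ht]
    field_simp
    ring
  have h3 : ev R x y' x y' = ev R x y x y := by
    rw [hy', ev_add2, ev_add4, ev_add4, ev_smul2, ev_smul4, ev_smul2, ev_smul4, hsk, hsk, hsk2]
    ring
  have h4 := horth x y' h1
  rw [h3, h2] at h4
  refine le_trans (le_of_eq ?_) h4
  congr 1
  field_simp

/-- Reduction of the strict inequality to the Einstein gauge. -/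
theorem reduce_pos
    (H : ∀ R : Arr 6, IsAlgCurv R → KCnonneg R → SecPos R →
      (∀ i j, ricc R i j = if i = j then 5 else 0) → 0 < HopfSix.gaussBonnet R)
    (R : Arr 6) (hA : IsAlgCurv R) (hK : KCnonneg R) (hs : SecPos R) :
    0 < HopfSix.gaussBonnet R := by
  obtain ⟨ε, hε, hu⟩ := secPos_unif hA hs
  set R' : Arr 6 := fun i j k l => R i j k l + (-ε) * idA 6 i j k l with hR'
  have hA' : IsAlgCurv R' := algCurv_add_smul hA idA_algCurv (-ε)
  have hsec : ∀ x y, 0 ≤ ev R' x y x y := by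
    intro x y
    have h1 : ev R' x y x y = ev R x y x y + (-ε) * ev (idA 6) x y x y := by
      rw [hR', ev_quad, ev_quad, ev_quad, Finset.mul_sum, ← Finset.sum_add_distrib]
      exact Finset.sum_congr rfl fun q _ => by ring
    rw [h1, ev_idA, dot_comm y x]
    have := hu x y
    nlinarith [this]
  have hRR : (fun i j k l => R' i j k l + ε * idA 6 i j k l) = R := by
    funext i j k l
    rw [hR']
    ring
  obtain ⟨g, r, hg, hr, hE⟩ := exists_gauge' hA' hsec hε
  rw [hRR] at hE
  set P := pull (fun i => g i) R with hP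
  have hgb : HopfSix.gaussBonnet P = HopfSix.gaussBonnet R := by
    rw [hP, gb_pull, hg, one_pow, one_mul]
  have h1 := H (fun i j k l => (5 / r) * P i j k l) (algCurv_smul (pull_algCurv _ hA) _)
    (by
      intro z w
      rw [kc_smul, hP, kc_pull]
      exact mul_nonneg (by positivity) (hK _ _))
    (secPos_smul (secPos_pull hs (by rw [hg]; exact one_ne_zero)) (by positivity))
    (by
      intro i j
      have h2 : ricc (fun i j k l => (5 / r) * P i j k l) i j = (5 / r) * ricc P i j := by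
        unfold ricc
        rw [Finset.mul_sum]
      rw [h2, hE i j]
      split_ifs
      · field_simp
      · simp)
  rw [gb_smul, hgb] at h1
  have h3 : 0 < (5 / r) ^ 3 := by positivity
  exact (mul_pos_iff_of_pos_left h3).1 h1

section cert

open H91.Split

/-- Existence of a tensor on the orthogonal orbit which is admissible and maximises a cubic
polynomial over the block rotations. -/
theorem exists_max' {R : Arr 6} (hA : IsAlgCurv R) (hK : KCnonneg R)
    (hE : ∀ i j, ricc R i j = if i = j then 5 else 0) (f : ℕ → ℕ → ℕ → ℝ) (n : ℕ)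
    (q : ℕ → Fin 6 × Fin 6 × Fin 6 × Fin 6) :
    ∃ (O : M6), Oᵀ * O = 1 ∧ Adm (rot O R) ∧
      HopfSix.gaussBonnet (rot O R) = HopfSix.gaussBonnet R ∧
      ∀ g : M6, IsBlk g → gᵀ * g = 1 →
        P f n (vq q (rot g (rot O R))) ≤ P f n (vq q (rot O R)) := by
  obtain ⟨O₀, hO₀, hmx, _⟩ := H91.Split.exists_best R
  have h : Adm (rot O₀ R) := by
    refine ⟨rot_isAlgCurv ⟨hA.skew, hA.pair, hA.bianchi⟩ O₀, ric_rot_const hE O₀ hO₀, hmx,
      kc_rot hK O₀⟩
  have hc : Continuous fun O : Fin 6 → Fin 6 → ℝ =>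
      P f n (vq q (rot (Matrix.of O) (rot O₀ R))) := by
    have hv : ∀ i, Continuous fun O : Fin 6 → Fin 6 → ℝ =>
        vq q (rot (Matrix.of O) (rot O₀ R)) i := by
      intro i
      unfold vq
      by_cases hi : i = 0
      · simp only [hi, if_true]; exact continuous_const
      · simp only [hi, if_false]
        generalize rot O₀ R = S
        simp only [rot, Matrix.of_apply]
        fun_prop
    unfold P
    refine continuous_finsetSum _ fun k _ => continuous_finsetSum _ fun i _ =>
      continuous_finsetSum _ fun j _ => ?_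
    exact continuous_const.mul (((hv k).mul (hv i)).mul (hv j))
  have hne : ({O : Fin 6 → Fin 6 → ℝ |
    (∀ i j, ∑ m, O m i * O m j = if i = j then 1 else 0) ∧
      ∀ a α, O (lo a) (hi α) = 0 ∧ O (hi α) (lo a) = 0}).Nonempty := by
    refine ⟨fun i j => (1 : M6) i j, (orth_iff (1 : M6)).1 (by simp), ?_⟩
    exact isBlk_one
  obtain ⟨O, hO, hmax⟩ := isCompact_blk.exists_isMaxOn hne hc.continuousOn
  have hO1 : (Matrix.of O : M6)ᵀ * Matrix.of O = 1 := (orth_iff _).2 hO.1
  have hO2 : IsBlk (Matrix.of O : M6) := hO.2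
  have hOO : (O₀ * Matrix.of O)ᵀ * (O₀ * Matrix.of O) = 1 := orth_mul hO₀ hO1
  have hr : rot (Matrix.of O) (rot O₀ R) = rot (O₀ * Matrix.of O) R := rot_rot _ _ _
  refine ⟨O₀ * Matrix.of O, hOO, ?_, gb_rot R hOO, ?_⟩
  · rw [← hr]
    exact h.rot hO2 hO1
  · intro g hg ho
    rw [← hr, rot_rot]
    have h2 := isMaxOn_iff.1 hmax (Matrix.of.symm (Matrix.of O * g : M6))
      ⟨(orth_iff _).1 (orth_mul hO1 ho), hO2.mul hg⟩
    simpa using h2

/-- The two conclusions in the Einstein gauge, from the certificate. -/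
theorem of_cert {f : ℕ → ℕ → ℕ → ℝ} {n : ℕ} {q : ℕ → Fin 6 × Fin 6 × Fin 6 × Fin 6} {c₀ : ℝ}
    (hc₀ : 0 < c₀)
    (hcert : ∀ S : Arr 6, Adm S →
      (∀ g : M6, IsBlk g → gᵀ * g = 1 → P f n (vq q (rot g S)) ≤ P f n (vq q S)) →
      c₀ * S 0 3 0 3 ≤ HopfSix.gaussBonnet S)
    {R : Arr 6} (hA : IsAlgCurv R) (hK : KCnonneg R)
    (hE : ∀ i j, ricc R i j = if i = j then 5 else 0) :
    0 ≤ HopfSix.gaussBonnet R ∧ (SecPos R → 0 < HopfSix.gaussBonnet R) := by
  obtain ⟨O, hO, hS, hgb, hmax⟩ := exists_max' hA hK hE f n q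
  have h1 := hcert _ hS hmax
  rw [hgb] at h1
  have hev : rot O R 0 3 0 3 = ev (rot O R) (Pi.single 0 1) (Pi.single 3 1) (Pi.single 0 1)
      (Pi.single 3 1) := (ev_single _ 0 3 0 3).symm
  constructor
  · have h2 : 0 ≤ rot O R 0 3 0 3 := by
      rw [hev, ← kc_real]
      exact hS.kc _ _
    nlinarith
  · intro hs
    have hd : Oᵀ.det ≠ 0 := by
      intro h0
      have := congrArg Matrix.det hO
      rw [Matrix.det_mul, h0, zero_mul, Matrix.det_one] at this
      exact one_ne_zero this.symm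
    have hs' : SecPos (rot O R) := by
      rw [rot_eq_pull]
      exact secPos_pull hs hd
    have h2 : 0 < rot O R 0 3 0 3 := by
      rw [hev]
      apply hs'
      rw [LinearIndependent.pair_iff]
      intro s t hst
      have h3 := congrFun hst 0
      have h4 := congrFun hst 3
      simp at h3 h4
      exact ⟨h3, h4⟩
    have := mul_pos hc₀ h2
    linarith

/-- Nonnegative complex sectional curvature. -/
theorem nonneg_of_cert {f : ℕ → ℕ → ℕ → ℝ} {n : ℕ} {q : ℕ → Fin 6 × Fin 6 × Fin 6 × Fin 6}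
    {c₀ : ℝ} (hc₀ : 0 < c₀)
    (hcert : ∀ S : Arr 6, Adm S →
      (∀ g : M6, IsBlk g → gᵀ * g = 1 → P f n (vq q (rot g S)) ≤ P f n (vq q S)) →
      c₀ * S 0 3 0 3 ≤ HopfSix.gaussBonnet S)
    {R : Arr 6} (hA : IsAlgCurv R) (hK : KCnonneg R) : 0 ≤ HopfSix.gaussBonnet R :=
  reduce_nonneg (fun _ hA hK hE => (of_cert hc₀ hcert hA hK hE).1) R hA hK

/-- Nonnegative complex and positive real sectional curvature. -/
theorem pos_of_cert {f : ℕ → ℕ → ℕ → ℝ} {n : ℕ} {q : ℕ → Fin 6 × Fin 6 × Fin 6 × Fin 6}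
    {c₀ : ℝ} (hc₀ : 0 < c₀)
    (hcert : ∀ S : Arr 6, Adm S →
      (∀ g : M6, IsBlk g → gᵀ * g = 1 → P f n (vq q (rot g S)) ≤ P f n (vq q S)) →
      c₀ * S 0 3 0 3 ≤ HopfSix.gaussBonnet S)
    {R : Arr 6} (hA : IsAlgCurv R) (hK : KCnonneg R) (hs : SecPos R) :
    0 < HopfSix.gaussBonnet R :=
  reduce_pos (fun _ hA hK hs hE => (of_cert hc₀ hcert hA hK hE).2 hs) R hA hK hs

/-- Nonpositive complex sectional curvature: the final statement. -/
theorem nonpos_of_cert {f : ℕ → ℕ → ℕ → ℝ} {n : ℕ} {q : ℕ → Fin 6 × Fin 6 × Fin 6 × Fin 6}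
    {c₀ : ℝ} (hc₀ : 0 < c₀)
    (hcert : ∀ S : Arr 6, Adm S →
      (∀ g : M6, IsBlk g → gᵀ * g = 1 → P f n (vq q (rot g S)) ≤ P f n (vq q S)) →
      c₀ * S 0 3 0 3 ≤ HopfSix.gaussBonnet S)
    {R : Arr 6} (hA : IsAlgCurv R) (hK : ∀ z w : Fin 6 → ℂ, kc R z w ≤ 0) :
    HopfSix.gaussBonnet R ≤ 0 ∧
      ((∀ x y : Fin 6 → ℝ, LinearIndependent ℝ ![x, y] → ev R x y x y < 0) →
        HopfSix.gaussBonnet R < 0) := by
  have hA' : IsAlgCurv (fun i j k l => (-1) * R i j k l) := algCurv_smul hA _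
  have hK' : KCnonneg (fun i j k l => (-1) * R i j k l) := by
    intro z w
    rw [kc_smul]
    linarith [hK z w]
  have hg := gb_smul R (-1)
  constructor
  · have h := nonneg_of_cert hc₀ hcert hA' hK'
    rw [hg] at h
    linarith
  · intro hs
    have h := pos_of_cert hc₀ hcert hA' hK' (by
      intro x y hxy
      have e : ev (fun i j k l => (-1) * R i j k l) x y x y = (-1) * ev R x y x y := by
        rw [ev_quad, ev_quad, Finset.mul_sum]
        exact Finset.sum_congr rfl fun q _ => by ring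
      rw [e]
      linarith [hs x y hxy])
    rw [hg] at h
    linarith

end cert

end HopfKC
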